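import Mathlib
import Pool.Agent.X1.TMFib

/-!
# The growth rate of the Thue–Morse-twisted Fibonacci sequence

With `G n = - h (2 n)` one has `G (n + 2) = G (n + 1) + (-1)^{v_2(n+2)} G n` and
`|h (2 n + 3)| = |G n|`.  The sequence `log G` is additive up to a bounded error along binary
expansions, which gives the existence of the growth rate.
-/

set_option autoImplicit false

namespace Pool.Agent.Results.MP_7d59ed_nt.GrowthRate

open Filter Pool.Agent.X1.TMFib

/-! ### Ratio bounds -/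

lemma G_le_three (n : ℕ) : G n ≤ 3 * G (n + 1) := by
  rcases Nat.lt_or_ge n 3 with h | h
  · interval_cases n
    · rw [G_zero, G_one]; norm_num
    · rw [G_one, G_two]; norm_num
    · rw [G_two, G_three]; norm_num
  · obtain ⟨m, hm | hm⟩ := Nat.even_or_odd' n
    · obtain ⟨m', rfl⟩ : ∃ m', m = m' + 1 := ⟨m - 1, by omega⟩
      have h1 := G_odd m'
      have h2 := G_nonneg (2 * m' + 2)
      have h3 := G_nonneg (2 * m' + 1)
      rw [hm, show 2 * (m' + 1) = 2 * m' + 2 by ring, show 2 * m' + 2 + 1 = 2 * m' + 3 by ring]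
      linarith
    · obtain ⟨m', rfl⟩ : ∃ m', m = m' + 1 := ⟨m - 1, by omega⟩
      -- n = 2m'+3, n+1 = 2m'+4
      have h1 := G_odd m'
      have h2 := G_rec (2 * m' + 2)
      have h3 := G_rec (2 * m')
      have e1 : 2 * m' + 2 + 2 = 2 * m' + 4 := by ring
      have e2 : 2 * m' + 2 + 1 = 2 * m' + 3 := by ring
      rw [e1, e2] at h2
      rw [hm, show 2 * (m' + 1) + 1 = 2 * m' + 3 by ring, show 2 * m' + 3 + 1 = 2 * m' + 4 by ring]
      have h4 := G_nonneg (2 * m' + 2)
      have h5 := G_nonneg (2 * m' + 1)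
      have h7 : G (2 * m') ≤ G (2 * m' + 1) := by
        have := (sol_nonneg 0 1 le_rfl zero_le_one m').2
        rwa [← G_eq_sol, ← G_eq_sol] at this
      rcases p_pm (2 * m' + 4) with h | h <;> rcases p_pm (2 * m' + 2) with h' | h' <;>
        rw [h] at h2 <;> rw [h'] at h3 <;> linarith [G_nonneg (2 * m')]

lemma G_succ_le (n : ℕ) (hn : 1 ≤ n) : G (n + 1) ≤ 4 * G n := by
  obtain ⟨m, rfl⟩ : ∃ m, n = m + 1 := ⟨n - 1, by omega⟩
  have h1 := G_rec m
  have h2 := G_le_three m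
  have h3 := G_nonneg m
  rw [show m + 1 + 1 = m + 2 by ring]
  rcases p_pm (m + 2) with h | h <;> rw [h] at h1 <;> linarith [G_nonneg (m + 1)]

/-- `F n = log G_n`. -/
noncomputable def F (n : ℕ) : ℝ := Real.log (G n)

lemma Gpos (n : ℕ) (hn : 1 ≤ n) : (0 : ℝ) < (G n : ℝ) := by
  have := G_pos n hn
  exact_mod_cast (by omega : 0 < G n)

lemma log4_pos : 0 < Real.log 4 := Real.log_pos (by norm_num)

lemma F_succ (n : ℕ) (hn : 1 ≤ n) : |F (n + 1) - F n| ≤ Real.log 4 := by
  have h1 := Gpos n hn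
  have h2 := Gpos (n + 1) (by omega)
  have h3 : (G (n + 1) : ℝ) ≤ 4 * G n := by exact_mod_cast G_succ_le n hn
  have h4 : (G n : ℝ) ≤ 3 * G (n + 1) := by exact_mod_cast G_le_three n
  have h5 : Real.log (G (n + 1)) ≤ Real.log 4 + Real.log (G n) := by
    rw [← Real.log_mul (by norm_num) h1.ne']
    exact Real.log_le_log h2 h3
  have h6 : Real.log (G n) ≤ Real.log 4 + Real.log (G (n + 1)) := by
    rw [← Real.log_mul (by norm_num) h2.ne']
    exact Real.log_le_log h1 (by linarith)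
  unfold F
  rw [abs_le]
  constructor <;> linarith

lemma F_add (K a b : ℕ) (hK : 1 ≤ K) (ha : 1 ≤ a) (hb1 : 1 ≤ b) (hb : b < 2 ^ K) :
    |F (2 ^ K * a + b) - F (2 ^ K * a) - F b| ≤ Real.log 4 := by
  have hN : 1 ≤ 2 ^ K * a := Nat.mul_pos (pow_pos (by norm_num) _) ha
  obtain ⟨N, hN'⟩ : ∃ N, 2 ^ K * a = N + 1 := ⟨2 ^ K * a - 1, by omega⟩
  have htr := transfer K a b hK hb
  have h1 := Gpos (2 ^ K * a) hN
  have h2 := Gpos b hb1
  have h3 := Gpos (2 ^ K * a + b) (by omega)
  have hX0 : 0 ≤ sol 1 0 b := sol_nonneg' 1 0 zero_le_one le_rfl b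
  have hX1 := X_le_G b hb1
  have hV : V (2 ^ K * a) = G N := by rw [hN', V_succ]
  have hN2 : 2 ≤ 2 ^ K * a := by
    calc 2 = 2 ^ 1 * 1 := by norm_num
      _ ≤ 2 ^ K * a := Nat.mul_le_mul (Nat.pow_le_pow_right (by norm_num) hK) ha
  have h4 : G N ≤ 3 * G (2 ^ K * a) := by rw [hN']; exact G_le_three N
  have h5 : G (2 ^ K * a) ≤ 4 * G N := by rw [hN']; exact G_succ_le N (by omega)
  have hg := G_pos (2 ^ K * a) hN
  have hgb := G_pos b hb1
  have hgN := G_pos N (by omega)
  rw [hV] at htr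
  have hup : G (2 ^ K * a + b) ≤ 4 * (G (2 ^ K * a) * G b) := by
    rw [htr]
    nlinarith
  have hlo : G (2 ^ K * a) * G b ≤ 4 * G (2 ^ K * a + b) := by
    rw [htr]
    nlinarith
  have hup' : (G (2 ^ K * a + b) : ℝ) ≤ 4 * (G (2 ^ K * a) * G b) := by exact_mod_cast hup
  have hlo' : (G (2 ^ K * a) : ℝ) * G b ≤ 4 * G (2 ^ K * a + b) := by exact_mod_cast hlo
  have h6 : Real.log (G (2 ^ K * a + b)) ≤ Real.log 4 + (Real.log (G (2 ^ K * a)) + Real.log (G b)) := by
    rw [← Real.log_mul h1.ne' h2.ne', ← Real.log_mul (by norm_num) (mul_pos h1 h2).ne']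
    exact Real.log_le_log h3 hup'
  have h7 : Real.log (G (2 ^ K * a)) + Real.log (G b) ≤ Real.log 4 + Real.log (G (2 ^ K * a + b)) := by
    rw [← Real.log_mul h1.ne' h2.ne', ← Real.log_mul (by norm_num) h3.ne']
    exact Real.log_le_log (mul_pos h1 h2) hlo'
  unfold F
  rw [abs_le]
  constructor <;> linarith

lemma F_double (K : ℕ) (hK : 1 ≤ K) : |F (2 ^ (K + 1)) - 2 * F (2 ^ K)| ≤ 3 * Real.log 4 := by
  have h2K : 2 ≤ 2 ^ K := by
    calc 2 = 2 ^ 1 := by norm_num
      _ ≤ 2 ^ K := Nat.pow_le_pow_right (by norm_num) hK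
  have h1 := F_add K 1 (2 ^ K - 1) hK le_rfl (by omega) (by omega)
  have h2 := F_succ (2 ^ K - 1) (by omega)
  have h3 := F_succ (2 ^ K * 1 + (2 ^ K - 1)) (by omega)
  have e1 : 2 ^ K * 1 + (2 ^ K - 1) + 1 = 2 ^ (K + 1) := by
    rw [pow_succ]; omega
  have e2 : 2 ^ K - 1 + 1 = 2 ^ K := by omega
  rw [e1] at h3
  rw [e2] at h2
  rw [Nat.mul_one] at h1 h3
  rw [abs_le] at *
  constructor <;> linarith [h1.1, h1.2, h2.1, h2.2, h3.1, h3.2]

/-- The growth rate of `G`. -/
lemma exists_rate : ∃ L : ℝ, ∀ K, |F (2 ^ (K + 1)) - 2 ^ (K + 1) * L| ≤ 3 * Real.log 4 := by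
  set u : ℕ → ℝ := fun K => F (2 ^ (K + 1)) / 2 ^ (K + 1) with hu
  have h1 : ∀ K, dist (u K) (u (K + 1)) ≤ (3 * Real.log 4 / 4) * (1 / 2 : ℝ) ^ K := by
    intro K
    have h2 := F_double (K + 1) (by omega)
    rw [Real.dist_eq, abs_sub_comm]
    have h3 : u (K + 1) - u K = (F (2 ^ (K + 1 + 1)) - 2 * F (2 ^ (K + 1))) / 2 ^ (K + 2) := by
      simp only [hu]
      rw [show K + 1 + 1 = K + 2 by ring, pow_succ (2 : ℝ) (K + 1)]
      field_simp
    rw [h3, abs_div, abs_of_pos (by positivity : (0 : ℝ) < 2 ^ (K + 2)), div_le_iff₀ (by positivity)]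
    have h4 : (3 * Real.log 4 / 4) * (1 / 2 : ℝ) ^ K * 2 ^ (K + 2) = 3 * Real.log 4 := by
      rw [pow_add, one_div, inv_pow]
      field_simp
      norm_num
    rw [h4]
    exact h2
  obtain ⟨L, hL⟩ := cauchySeq_tendsto_of_complete (cauchySeq_of_le_geometric _ _ (by norm_num) h1)
  refine ⟨L, fun K => ?_⟩
  have h2 := dist_le_of_le_geometric_of_tendsto _ _ (by norm_num) h1 hL K
  rw [Real.dist_eq] at h2
  have hpos : (0 : ℝ) < 2 ^ (K + 1) := by positivity
  have h3 : F (2 ^ (K + 1)) - 2 ^ (K + 1) * L = (u K - L) * 2 ^ (K + 1) := by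
    simp only [hu]
    field_simp
  rw [h3, abs_mul, abs_of_pos hpos]
  have h4 : 3 * Real.log 4 / 4 * (1 / 2 : ℝ) ^ K / (1 - 1 / 2) * 2 ^ (K + 1) = 3 * Real.log 4 := by
    rw [pow_succ, one_div, inv_pow]
    field_simp
    ring
  calc |u K - L| * 2 ^ (K + 1) ≤ 3 * Real.log 4 / 4 * (1 / 2 : ℝ) ^ K / (1 - 1 / 2) * 2 ^ (K + 1) :=
        mul_le_mul_of_nonneg_right h2 hpos.le
    _ = _ := h4

lemma F_general {L : ℝ} (hL0 : |L| ≤ 3 * Real.log 4)
    (hL : ∀ K, |F (2 ^ (K + 1)) - 2 ^ (K + 1) * L| ≤ 3 * Real.log 4) (n : ℕ) (hn : 1 ≤ n) :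
    |F n - n * L| ≤ 4 * Real.log 4 * (Nat.log 2 n + 1) := by
  induction n using Nat.strong_induction_on with
  | _ n ih =>
    set K := Nat.log 2 n with hK
    have h1 : 2 ^ K ≤ n := Nat.pow_log_le_self 2 (by omega)
    have h2 : n < 2 ^ (K + 1) := Nat.lt_pow_succ_log_self (by norm_num) n
    obtain ⟨b, hb⟩ := Nat.exists_eq_add_of_le h1
    have hb2 : b < 2 ^ K := by rw [pow_succ] at h2; omega
    have hpowL : |F (2 ^ K) - 2 ^ K * L| ≤ 3 * Real.log 4 := by
      rcases Nat.eq_zero_or_pos K with h0 | h0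
      · rw [h0]
        have : F (2 ^ 0) = 0 := by simp [F, G_one]
        rw [this]
        simpa using hL0
      · obtain ⟨K', hK'⟩ : ∃ K', K = K' + 1 := ⟨K - 1, by omega⟩
        rw [hK']
        exact hL K'
    have hlog := log4_pos
    rcases Nat.eq_zero_or_pos b with hb0 | hb0
    · rw [hb0, add_zero] at hb
      rw [hb]
      push_cast
      refine hpowL.trans ?_
      have : (0 : ℝ) ≤ (K : ℝ) := Nat.cast_nonneg _
      nlinarith
    · have hK1 : 1 ≤ K := by
        by_contra hcon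
        have : K = 0 := by omega
        rw [this] at hb2
        omega
      have h3 := F_add K 1 b hK1 le_rfl hb0 hb2
      rw [Nat.mul_one] at h3
      have h4 := ih b (by omega) hb0
      have h5 : Nat.log 2 b + 1 ≤ K := by
        have := Nat.log_lt_of_lt_pow (by omega) hb2
        omega
      have h6 : ((Nat.log 2 b : ℕ) : ℝ) + 1 ≤ K := by exact_mod_cast h5
      have h7 : |F b - b * L| ≤ 4 * Real.log 4 * K :=
        h4.trans (mul_le_mul_of_nonneg_left h6 (by positivity))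
      have h8 : F n - n * L = (F (2 ^ K + b) - F (2 ^ K) - F b) + (F (2 ^ K) - 2 ^ K * L)
          + (F b - b * L) := by
        rw [hb]
        push_cast
        ring
      rw [h8]
      calc _ ≤ |F (2 ^ K + b) - F (2 ^ K) - F b| + |F (2 ^ K) - 2 ^ K * L| + |F b - b * L| :=
            abs_add_three _ _ _
        _ ≤ Real.log 4 + 3 * Real.log 4 + 4 * Real.log 4 * K := by linarith
        _ = _ := by ring

/-! ### Numerical evaluation -/

lemma transfer_one (u v : ℤ) (K b : ℕ) (hK : 1 ≤ K) (hb : b < 2 ^ K) :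
    sol u v (2 ^ K + b) = sol u v (2 ^ K) * sol 1 0 b + sol u v (2 ^ K - 1) * G b := by
  rw [G_eq_sol b, ← sol_linear]
  induction b using Nat.twoStepInduction with
  | zero => simp [sol]
  | one =>
    obtain ⟨K', rfl⟩ : ∃ K', K = K' + 1 := ⟨K - 1, by omega⟩
    have h1 : (1 : ℕ) ≤ 2 ^ K' := Nat.one_le_two_pow
    have h2 : 2 ^ (K' + 1) = 2 * 2 ^ K' := by ring
    obtain ⟨m, hm⟩ : ∃ m, 2 ^ (K' + 1) = 2 * m + 2 := ⟨2 ^ K' - 1, by omega⟩
    have h3 : p (2 * m + 3) = 1 := by
      rw [show 2 * m + 3 = 2 * (m + 1) + 1 by ring, p_odd]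
    rw [hm]
    have h4 : 2 * m + 2 - 1 = 2 * m + 1 := by omega
    rw [h4]
    have h5 : sol u v (2 * m + 2 + 1) = sol u v (2 * m + 2) + p (2 * m + 3) * sol u v (2 * m + 1) := rfl
    rw [h5, h3, one_mul]
    rfl
  | more b ih1 ih2 =>
    have h1 := ih1 (by omega)
    have h2 := ih2 (by omega)
    have hp : p (2 ^ K + (b + 2)) = p (b + 2) := by
      have := p_add K 1 (b + 2) (by omega) hb
      rwa [Nat.mul_one] at this
    rw [sol_rec, ← h1, ← h2, ← hp]
    exact sol_rec u v (2 ^ K + b)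

lemma p_two_pow (K : ℕ) : p (2 ^ K) = (-1) ^ K := by
  unfold p
  rw [padicValNat.prime_pow]

/-- The quadruple `(G_{2^K-1}, G_{2^K-2}, X_{2^K-1}, X_{2^K-2})` for `K = n + 1`, by doubling. -/
def dbl : ℕ → ℤ × ℤ × ℤ × ℤ
  | 0 => (1, 0, 1, 1)
  | n + 1 =>
    let q := dbl n
    let g := q.1 + (-1) ^ (n + 1) * q.2.1
    let x := q.2.2.1 + (-1) ^ (n + 1) * q.2.2.2
    (g * q.2.2.1 + q.1 * q.1, g * q.2.2.2 + q.1 * q.2.1,
      x * q.2.2.1 + q.2.2.1 * q.1, x * q.2.2.2 + q.2.2.1 * q.2.1)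

lemma dbl_spec (n : ℕ) : dbl n = (G (2 ^ (n + 1) - 1), G (2 ^ (n + 1) - 2),
    sol 1 0 (2 ^ (n + 1) - 1), sol 1 0 (2 ^ (n + 1) - 2)) := by
  induction n with
  | zero => simp [dbl, G_one, G_zero, sol]
  | succ n ih =>
    have h2 : 2 ≤ 2 ^ (n + 1) := by
      calc 2 = 2 ^ 1 := by norm_num
        _ ≤ 2 ^ (n + 1) := Nat.pow_le_pow_right (by norm_num) (by omega)
    have e0 : 2 ^ (n + 1 + 1) = 2 ^ (n + 1) + 2 ^ (n + 1) := by rw [pow_succ]; ring
    have e1 : 2 ^ (n + 1 + 1) - 1 = 2 ^ (n + 1) + (2 ^ (n + 1) - 1) := by omega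
    have e2 : 2 ^ (n + 1 + 1) - 2 = 2 ^ (n + 1) + (2 ^ (n + 1) - 2) := by omega
    have hmid : ∀ u v : ℤ, sol u v (2 ^ (n + 1)) = sol u v (2 ^ (n + 1) - 1)
        + (-1) ^ (n + 1) * sol u v (2 ^ (n + 1) - 2) := by
      intro u v
      rw [← p_two_pow]
      obtain ⟨m, hm⟩ : ∃ m, 2 ^ (n + 1) = m + 2 := ⟨2 ^ (n + 1) - 2, by omega⟩
      rw [hm]
      exact sol_rec u v m
    have t1 := transfer_one 0 1 (n + 1) (2 ^ (n + 1) - 1) (by omega) (by omega)
    have t2 := transfer_one 0 1 (n + 1) (2 ^ (n + 1) - 2) (by omega) (by omega)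
    have t3 := transfer_one 1 0 (n + 1) (2 ^ (n + 1) - 1) (by omega) (by omega)
    have t4 := transfer_one 1 0 (n + 1) (2 ^ (n + 1) - 2) (by omega) (by omega)
    rw [hmid] at t1 t2 t3 t4
    simp only [← G_eq_sol] at t1 t2
    rw [e1, e2, t1, t2, t3, t4]
    simp only [dbl, ih]

/-- `G_{2^(n+1)}` from the quadruple. -/
def dblG (n : ℕ) : ℤ := (dbl n).1 + (-1) ^ (n + 1) * (dbl n).2.1

lemma dblG_spec (n : ℕ) : dblG n = G (2 ^ (n + 1)) := by
  unfold dblG
  rw [dbl_spec, ← p_two_pow]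
  have h2 : 2 ≤ 2 ^ (n + 1) := by
    calc 2 = 2 ^ 1 := by norm_num
      _ ≤ 2 ^ (n + 1) := Nat.pow_le_pow_right (by norm_num) (by omega)
  obtain ⟨m, hm⟩ : ∃ m, 2 ^ (n + 1) = m + 2 := ⟨2 ^ (n + 1) - 2, by omega⟩
  rw [hm]
  exact (G_rec m).symm

lemma num_lower : (64 : ℤ) * 144 ^ 32768 < dblG 13 * 125 ^ 32768 := by decide +kernel
lemma num_upper : (64 : ℤ) * dblG 13 * 400 ^ 32768 < 461 ^ 32768 := by decide +kernel

/-! ### The main theorem -/

lemma rate_bounds {L : ℝ} (hL : ∀ K, |F (2 ^ (K + 1)) - 2 ^ (K + 1) * L| ≤ 3 * Real.log 4) :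
    2 * Real.log (144 / 125) < L ∧ L < 2 * Real.log (461 / 400) := by
  have h13 := hL 13
  have hF : F (2 ^ (13 + 1)) = Real.log (dblG 13) := by rw [dblG_spec]; rfl
  have hG : (0 : ℝ) < (dblG 13 : ℝ) := by
    rw [dblG_spec]
    exact Gpos _ Nat.one_le_two_pow
  have h64 : 3 * Real.log 4 = Real.log 64 := by
    rw [show (64 : ℝ) = 4 ^ 3 by norm_num, Real.log_pow]
    norm_num
  rw [hF, h64, abs_le] at h13
  have hlo : (64 : ℝ) * 144 ^ 32768 < dblG 13 * 125 ^ 32768 := by exact_mod_cast num_lower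
  have hup : (64 : ℝ) * dblG 13 * 400 ^ 32768 < 461 ^ 32768 := by exact_mod_cast num_upper
  have h125 : (0 : ℝ) < 125 ^ 32768 := pow_pos (by norm_num) _
  have h400 : (0 : ℝ) < 400 ^ 32768 := pow_pos (by norm_num) _
  have hlo' : Real.log 64 + 32768 * Real.log (144 / 125) < Real.log (dblG 13) := by
    have h1 : (32768 : ℝ) * Real.log (144 / 125) = Real.log ((144 / 125) ^ 32768) := by
      rw [Real.log_pow]; norm_num
    have h3 : (0 : ℝ) < (144 / 125) ^ 32768 := pow_pos (by norm_num) _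
    rw [h1, ← Real.log_mul (by norm_num) h3.ne']
    apply Real.log_lt_log (mul_pos (by norm_num) h3)
    rw [div_pow, mul_div_assoc', div_lt_iff₀ h125]
    exact hlo
  have hup' : Real.log 64 + Real.log (dblG 13) < 32768 * Real.log (461 / 400) := by
    have h1 : (32768 : ℝ) * Real.log (461 / 400) = Real.log ((461 / 400) ^ 32768) := by
      rw [Real.log_pow]; norm_num
    rw [h1, ← Real.log_mul (by norm_num) hG.ne']
    apply Real.log_lt_log (mul_pos (by norm_num) hG)
    rw [div_pow, lt_div_iff₀ h400]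
    exact hup
  have e : (2 : ℝ) ^ (13 + 1) = 16384 := by norm_num
  rw [e] at h13
  constructor <;> linarith [h13.1, h13.2]

/-- The limit `g = lim |h_n|^{1/n}` exists, `1.152 < g < 1.1525`, and `|h_n|` equals `g^n` up to a
polynomial factor. -/
theorem result : ∃ g : ℝ, 1.152 < g ∧ g < 1.1525 ∧
    Tendsto (fun n : ℕ => |(h n : ℝ)| ^ (1 / (n : ℝ))) atTop (nhds g) ∧
    ∃ C : ℝ, ∀ n : ℕ, 5 ≤ n → |Real.log |(h n : ℝ)| - n * Real.log g| ≤ C * Real.log n := by
  obtain ⟨L, hL⟩ := exists_rate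
  obtain ⟨hb1, hb2⟩ := rate_bounds hL
  have hlog4 := log4_pos
  have hpos1 : 0 < Real.log (144 / 125) := Real.log_pos (by norm_num)
  have hle4 : Real.log (461 / 400) ≤ Real.log 4 := Real.log_le_log (by norm_num) (by norm_num)
  have hLpos : 0 < L := by linarith
  have hL0 : |L| ≤ 3 * Real.log 4 := by
    rw [abs_of_pos hLpos]
    linarith
  have hlog2 : 0 < Real.log 2 := Real.log_pos (by norm_num)
  have h42 : Real.log 4 = 2 * Real.log 2 := by
    rw [show (4 : ℝ) = 2 ^ 2 by norm_num, Real.log_pow]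
    norm_num
  -- the main bound
  have main : ∀ n : ℕ, 5 ≤ n → |Real.log |(h n : ℝ)| - n * (L / 2)| ≤ 18 * Real.log n := by
    intro n hn
    -- a bound with `m`
    have key : ∀ m : ℕ, 1 ≤ m → 2 * m ≤ n → |F m - m * L| + 3 / 2 * L ≤ 18 * Real.log n := by
      intro m hm hmn
      have h1 := F_general hL0 hL m hm
      have h2 : Nat.log 2 m + 1 ≤ Nat.log 2 n := by
        have h3 : Nat.log 2 (m * 2) = Nat.log 2 m + 1 := Nat.log_mul_base (by norm_num) (by omega)
        rw [← h3]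
        exact Nat.log_mono_right (by omega)
      have h4 : ((Nat.log 2 n : ℕ) : ℝ) ≤ Real.log n / Real.log 2 := by
        have := Real.natLog_le_logb n 2
        rw [Real.logb] at this
        exact_mod_cast this
      have h5 : ((Nat.log 2 m : ℕ) : ℝ) + 1 ≤ Real.log n / Real.log 2 := by
        refine le_trans ?_ h4
        exact_mod_cast h2
      have h6 : (1 : ℝ) ≤ Real.log n / Real.log 2 := by
        have : (0 : ℝ) ≤ ((Nat.log 2 m : ℕ) : ℝ) := Nat.cast_nonneg _
        linarith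
      rw [le_div_iff₀ hlog2] at h5 h6
      have h7 : |F m - m * L| ≤ 8 * Real.log n := by
        refine h1.trans ?_
        rw [h42]
        calc 4 * (2 * Real.log 2) * (((Nat.log 2 m : ℕ) : ℝ) + 1)
            = 8 * ((((Nat.log 2 m : ℕ) : ℝ) + 1) * Real.log 2) := by ring
          _ ≤ 8 * Real.log n := by linarith
      have h8 : 3 / 2 * L ≤ 9 * Real.log n := by
        have : L ≤ 4 * Real.log 2 := by linarith
        linarith
      linarith
    obtain ⟨m, hm | hm⟩ := Nat.even_or_odd' n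
    · have h1 : Real.log |(h n : ℝ)| = F m := by
        unfold F
        congr 1
        have h2 : |h n| = |G m| := by rw [hm]; exact abs_h_even m
        have h3 : |G m| = G m := abs_of_nonneg (G_nonneg m)
        rw [h3] at h2
        exact_mod_cast h2
      have h4 := key m (by omega) (by omega)
      have h5 : (n : ℝ) * (L / 2) = m * L := by
        rw [hm]
        push_cast
        ring
      rw [h1, h5]
      linarith
    · obtain ⟨m', rfl⟩ : ∃ m', m = m' + 1 := ⟨m - 1, by omega⟩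
      have h1 : Real.log |(h n : ℝ)| = F m' := by
        unfold F
        congr 1
        have h2 : |h n| = |G m'| := by
          rw [hm, show 2 * (m' + 1) + 1 = 2 * m' + 3 by ring]
          exact abs_h_odd m'
        have h3 : |G m'| = G m' := abs_of_nonneg (G_nonneg m')
        rw [h3] at h2
        exact_mod_cast h2
      have h4 := key m' (by omega) (by omega)
      have h5 : (n : ℝ) * (L / 2) = m' * L + 3 / 2 * L := by
        rw [hm]
        push_cast
        ring
      rw [h1, h5]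
      have h6 : F m' - (m' * L + 3 / 2 * L) = (F m' - m' * L) + (-(3 / 2 * L)) := by ring
      rw [h6]
      refine (abs_add_le _ _).trans ?_
      rw [abs_neg, abs_of_pos (by linarith : 0 < 3 / 2 * L)]
      exact h4
  have hlogg : Real.log (Real.exp (L / 2)) = L / 2 := Real.log_exp _
  refine ⟨Real.exp (L / 2), ?_, ?_, ?_, 18, ?_⟩
  · have : (1.152 : ℝ) = Real.exp (Real.log (144 / 125)) := by
      rw [Real.exp_log (by norm_num)]; norm_num
    rw [this]
    exact Real.exp_lt_exp.2 (by linarith)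
  · have : (1.1525 : ℝ) = Real.exp (Real.log (461 / 400)) := by
      rw [Real.exp_log (by norm_num)]; norm_num
    rw [this]
    exact Real.exp_lt_exp.2 (by linarith)
  · have h1 : Tendsto (fun n : ℕ => Real.log |(h n : ℝ)| / n) atTop (nhds (L / 2)) := by
      rw [tendsto_iff_norm_sub_tendsto_zero]
      have h2 : Tendsto (fun n : ℕ => 18 * (Real.log (n : ℝ) / (n : ℝ))) atTop (nhds 0) := by
        have h3 := (Real.isLittleO_log_id_atTop.tendsto_div_nhds_zero).comp tendsto_natCast_atTop_atTop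
        simpa using h3.const_mul 18
      refine squeeze_zero' (Eventually.of_forall fun _ => norm_nonneg _) ?_ h2
      filter_upwards [eventually_ge_atTop 5] with n hn
      have hn0 : (0 : ℝ) < n := by exact_mod_cast (by omega : 0 < n)
      have h4 := main n hn
      have h5 : Real.log |(h n : ℝ)| / n - L / 2 = (Real.log |(h n : ℝ)| - n * (L / 2)) / n := by
        field_simp
      rw [h5, Real.norm_eq_abs, abs_div, abs_of_pos hn0]
      calc |Real.log |(h n : ℝ)| - n * (L / 2)| / n ≤ 18 * Real.log n / n :=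
            div_le_div_of_nonneg_right h4 hn0.le
        _ = 18 * (Real.log n / n) := mul_div_assoc _ _ _
    have h2 := (Real.continuous_exp.tendsto (L / 2)).comp h1
    refine h2.congr' ?_
    filter_upwards [eventually_ge_atTop 5] with n hn
    have hne : (h n : ℝ) ≠ 0 := by
      obtain ⟨m, hm | hm⟩ := Nat.even_or_odd' n
      · have h2 : |h n| = |G m| := by rw [hm]; exact abs_h_even m
        have h3 := G_pos m (by omega)
        have h4 : h n ≠ 0 := by
          intro h0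
          rw [h0, abs_zero] at h2
          have := abs_pos.2 (by omega : G m ≠ 0)
          omega
        exact_mod_cast h4
      · obtain ⟨m', rfl⟩ : ∃ m', m = m' + 1 := ⟨m - 1, by omega⟩
        have h2 : |h n| = |G m'| := by
          rw [hm, show 2 * (m' + 1) + 1 = 2 * m' + 3 by ring]
          exact abs_h_odd m'
        have h3 := G_pos m' (by omega)
        have h4 : h n ≠ 0 := by
          intro h0
          rw [h0, abs_zero] at h2
          have := abs_pos.2 (by omega : G m' ≠ 0)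
          omega
        exact_mod_cast h4
    simp only [Function.comp_apply]
    rw [Real.rpow_def_of_pos (abs_pos.2 hne), mul_one_div]
  · intro n hn
    rw [hlogg]
    exact main n hn

end Pool.Agent.Results.MP_7d59ed_nt.GrowthRate
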